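import Mathlib

/-!
# MP_07c750 (quantum unique ergodicity, weight 10), PROJECT FS: dense geodesics carry at least half of the mass; pure part (the fractal uncertainty principle), rows `fs:XXX`

Page: /team-store/FS_page_helper52.md.

RULES. Row `fs:XXX` (problem MP_07c750_an): file `Pool/Agent/<seat>/FS/XXX.lean`, `import Pool.Agent.helper52.FS.SpecP` (and what you need), `set_option autoImplicit false`, namespace `Pool.Agent.FS`, auxiliary lemmas prefixed `XXX_`, theorem `XXX_proof (h : YYY_stmt) .. : XXX_stmt` with the rows listed in `from` as hypotheses.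
No straight double quotes, no `convert`, `congr!`, `native_decide`. A false or doubtful statement: message to helper52 at once.
-/

open MeasureTheory Set

set_option autoImplicit false

namespace Pool.Agent.FS

noncomputable section

/-- `e^(i s)` -/
def ee (s : ℝ) : ℂ := Complex.exp ((s : ℂ) * Complex.I)

/-- the window `(sin(t/2)/(t/2))^2` -/
def rho (t : ℝ) : ℝ := ∫ s in Icc (-1 : ℝ) 1, (1 - |s|) * Real.cos (s * t)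

/-- its Cauchy transform -/
def RR (w : ℂ) : ℂ := ∫ s in Icc (-1 : ℝ) 1, ((1 - |s| : ℝ) : ℂ) / ((s : ℂ) - w)

/-! ## U. The gap theorem -/

/-- **Row RHO** (the window; short-medium; pure). `∫_(-1)^1 (1 - |s|) cos(s t) ds = 2(1 - cos t)/t²` for `t ≠ 0` (two integrations by parts, or an antiderivative on `[0, 1]`). `0 ≤ 1 - cos t ≤ 2`, so `ρ ≤ 4/t² ≤ 5/(1 + t²)` for `|t| ≥ 2`; `ρ ≤ ∫ (1 - |s|) = 1`. `cos x ≥ 1 - x²/2` gives `ρ ≥ 1 - t²/12 ≥ 1/4` for `|t| ≤ 3`. -/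
structure RHO_stmt : Prop where
  ct : Continuous rho
  ev : ∀ t, rho (-t) = rho t
  nn : ∀ t, 0 ≤ rho t
  le : ∀ t, rho t ≤ 1
  dc : ∀ t, rho t ≤ 5 / (1 + t ^ 2)
  lo : ∀ t : ℝ, |t| ≤ 3 → 1 / 4 ≤ rho t
  ig : Integrable rho
  im : ∫ t, rho t ≤ 16
  ce : ∀ t : ℝ, (rho t : ℂ) = ∫ s in Icc (-1 : ℝ) 1, ((1 - |s| : ℝ) : ℂ) * ee (-(s * t))

/-- **Row RRW** (the Cauchy transform of the window; medium; pure; from RHO). (1) differentiation under the integral sign (`hasDerivAt_integral_of_dominated_loc_of_deriv_le`), or: locally a power series; the denominator is bounded away from `0` near `w`. (2) `∫_0^∞ e^(i t w) e^(-i s t) dt = i/(w - s)` for `Im w > 0` (Mathlib: integral of `exp (a t)` on `Ioi 0`,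
`Re a < 0`), `ρ(t) = ∫ (1 - |s|) e^(-i s t) ds`, Fubini (`|..| ≤ e^(-t Im w)`); `i · i/(w - s) = 1/(s - w)`. (3) `∫_0^∞ e^(-i t w) e^(i s t) dt = i/(s - w)` for `Im w < 0`, `ρ(t) = ρ(-t) = ∫ (1 - |s|) e^(i s t) ds`. -/
def RRW_stmt : Prop := (∀ w : ℂ, (w.im ≠ 0 ∨ 1 < |w.re|) → DifferentiableAt ℂ RR w) ∧
  (∀ w : ℂ, 0 < w.im → IntegrableOn (fun t : ℝ => Complex.exp (Complex.I * t * w) * (rho t : ℂ)) (Ioi 0) ∧ RR w = Complex.I * ∫ t in Ioi (0 : ℝ), Complex.exp (Complex.I * t * w) * (rho t : ℂ)) ∧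
  ∀ w : ℂ, w.im < 0 → IntegrableOn (fun t : ℝ => Complex.exp (-(Complex.I * t * w)) * (rho t : ℂ)) (Ioi 0) ∧ RR w = -(Complex.I * ∫ t in Ioi (0 : ℝ), Complex.exp (-(Complex.I * t * w)) * (rho t : ℂ))

/-- a finite exponential sum times the window -/
def qq (S : Finset ℤ) (b : ℤ → ℂ) (lam : ℤ → ℝ) (t : ℝ) : ℂ := (rho t : ℂ) * ∑ k ∈ S, b k * ee (lam k * t)

/-- its Cauchy transform -/
def CC (S : Finset ℤ) (b : ℤ → ℂ) (lam : ℤ → ℝ) (z : ℂ) : ℂ := ∑ k ∈ S, b k * RR (z - (lam k : ℂ))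

/-- **Row CAU** (medium; from RHO, RRW). (1) finite sum. (2) RRW (2) for `w = z - lam k`: `CC z = i ∫_0^∞ e^(i t z) q(-t) dt` (`q(-t) = ρ(t) Σ b e^(-i lam t)`), for `Im z < 0` `CC z = -i ∫_0^∞ e^(-i t z) q(t) dt`. Split at `t = c`: `≤ ∫_(|t| ≤ c) ‖q‖ + e^(-c |y|) ∫ ‖q‖` (`|e^(i t z)| = e^(-t y)`), and `1 ≤ e^(-c|y|) e^(c L)`. (3) `z = i`. -/
def CAU_stmt : Prop := ∀ (S : Finset ℤ) (b : ℤ → ℂ) (lam : ℤ → ℝ), Integrable (qq S b lam) ∧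
  (∀ z : ℂ, (∀ k ∈ S, z.im ≠ 0 ∨ 1 < |z.re - lam k|) → DifferentiableAt ℂ (CC S b lam) z) ∧
  (∀ (c L : ℝ) (z : ℂ), 0 ≤ c → z.im ≠ 0 → |z.im| ≤ L → ‖CC S b lam z‖ ≤ ((∫ t, ‖qq S b lam t‖) + Real.exp (c * L) * ∫ t in Icc (-c) c, ‖qq S b lam t‖) * Real.exp (-(c * |z.im|))) ∧
  CC S b lam Complex.I = Complex.I * ∫ t in Ioi (0 : ℝ), (Real.exp (-t) : ℂ) * qq S b lam (-t)

/-- **Row ROT** (four rotations; short; pure). `G(w) = Π_(k<4) f(z0 + i^k w)` on `|w| ≤ r`; for `|w| = r`: `|Im (z0 + i^k w)| ≥ |Im (i^k w)| - |Im z0|`, `Σ_k |Im (i^k w)| = 2(|Re w| + |Im w|) ≥ 2r`, so `‖G‖ ≤ A⁴ e^(4c |Im z0|) e^(-2 c r)`. Maximum principle (`Complex.norm_le_of_forall_mem_frontier_norm_le`) at `w = 0`, fourth root. -/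
def ROT_stmt : Prop := ∀ (f : ℂ → ℂ) (z0 : ℂ) (c r A : ℝ), 0 ≤ c → 0 < r → 0 ≤ A → (∀ z : ℂ, ‖z - z0‖ ≤ r → DifferentiableAt ℂ f z ∧ ‖f z‖ ≤ A * Real.exp (-(c * |z.im|))) →
  ‖f z0‖ ≤ A * Real.exp (c * |z0.im|) * Real.exp (-(c * r / 2))

/-- the analytic function whose real part is the Poisson integral of the interval `[l, r]` -/
def WW (l r : ℝ) (z : ℂ) : ℂ := -(Complex.I / Real.pi) * ∫ s in Icc l r, 1 / ((s : ℂ) - z)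

/-- **Row HMW** (medium; pure). `Re WW = (1/π) ∫_l^r y/((s - x)² + y²) ds` (`1/(s - z) = (s - x + i y)/|s - z|²`, `-i · i = 1`). `≤ (1/π) ∫_ℝ = 1` (`integral_univ_inv_one_add_sq`, substitution). If `|s - x| ≥ d` on `[l, r]`: `≤ y (r - l)/(π d²)`. `y/((s-x)² + y²) ≤ 1/y`. At `z = i`: `1/(1 + s²) ≥ 1/(1 + r²)`. Differentiability: under the integral sign. -/
def HMW_stmt : Prop := ∀ l r : ℝ, l ≤ r → (∀ z : ℂ, 0 < z.im → DifferentiableAt ℂ (WW l r) z ∧ 0 ≤ (WW l r z).re ∧ (WW l r z).re ≤ 1 ∧ (WW l r z).re ≤ (r - l) / (Real.pi * z.im) ∧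
    ∀ d : ℝ, 0 < d → (z.re ≤ l - d ∨ r + d ≤ z.re) → (WW l r z).re ≤ z.im * (r - l) / (Real.pi * d ^ 2)) ∧
  (0 ≤ l → (r - l) / (Real.pi * (1 + r ^ 2)) ≤ (WW l r Complex.I).re)

/-- **Row HMB** (THE GAP THEOREM; medium; from ROT, HMW). `L = 2^(i2+3)`, `J_i = [y_i - g 2^i/4, y_i + g 2^i/4]`, `λ_i = c g 2^i/8`. For small `ε > 0` consider `F(z) = C(z) exp(Σ_i λ_i WW_(J_i)(z))` on the strip `ε ≤ Im z ≤ L`: bounded (`‖C‖ ≤ A`, `Re WW ≤ 1`). On `Im z = ε`, `|Re z - y_i| ≤ g 2^i/2`: ROT with `r = g 2^i/4`: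
`‖C‖ ≤ A e^(cε) e^(-λ_i)`, the other `j ≠ i` have distance `≥ d` (the intervals of radius `g 2^i/2` about the `y_i` are disjoint and apart), so `Σ_(j≠i) λ_j Re WW_j ≤ K ε`; if `Re z` is in none of them: `Σ_j ≤ K ε`. So `‖F‖ ≤ A e^(cε + Kε)`. On `Im z = L`: `‖C‖ ≤ A e^(-cL)`, `Σ λ_i (g 2^i/2)/(π L) ≤ c L`.
`PhragmenLindelof.horizontal_strip`; `ε → 0`; at `z = i`: `Re WW_i ≥ (g 2^i/2)/(π (1 + r²))`, `r ≤ 1.6 · 2^i`: `λ_i Re WW_i ≥ c g²/200`. -/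
def HMB_stmt : Prop := ∀ (c g A : ℝ) (i1 i2 : ℕ) (C : ℂ → ℂ) (y : ℕ → ℝ), 0 < c → c ≤ 1 → 0 < g → g ≤ 1 / 8 → 0 ≤ A → i1 ≤ i2 → (∀ z : ℂ, 0 < z.im → DifferentiableAt ℂ C z) → (∀ z : ℂ, 0 < z.im → z.im ≤ 2 ^ (i2 + 3) → ‖C z‖ ≤ A * Real.exp (-(c * z.im))) →
  (∀ i : ℕ, i1 ≤ i → i < i2 → 2 ^ i ≤ y i ∧ y i ≤ 3 / 2 * 2 ^ i ∧ ∀ z : ℂ, ‖z - (y i : ℂ)‖ ≤ g * 2 ^ i → DifferentiableAt ℂ C z ∧ ‖C z‖ ≤ A * Real.exp (-(c * |z.im|))) →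
    ‖C Complex.I‖ ≤ A * Real.exp (-(c * g ^ 2 * ((i2 : ℝ) - i1) / 200))

/-- **Row UNQ** (short-medium; from CAU, HMB). `C = CC S b' lam'`, `lam' k = lam k - η`: `qq S b lam' t = ee(-η t) qq S b lam t`, the same norms. `A` = the bracket with `L = 2^(i2+3)`. On a disc about a gap point: `|z.re - lam' k| ≥ |y - lam' k| - g 2^i > 1`, CAU (2) gives differentiability; the bound for `Im z ≠ 0` is CAU (3) (`|Im z| ≤ g 2^i ≤ L`), for `Im z = 0` by continuity. -/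
def UNQ_stmt : Prop := ∀ (c g η : ℝ) (i1 i2 : ℕ) (S : Finset ℤ) (b : ℤ → ℂ) (lam : ℤ → ℝ), 0 < c → c ≤ 1 → 0 < g → g ≤ 1 / 8 → i1 ≤ i2 →
  (∀ i : ℕ, i1 ≤ i → i < i2 → ∃ y : ℝ, 2 ^ i ≤ y ∧ y ≤ 3 / 2 * 2 ^ i ∧ ∀ k ∈ S, g * 2 ^ i + 1 < |lam k - η - y|) →
    ‖∫ t in Ioi (0 : ℝ), (Real.exp (-t) : ℂ) * ee (η * t) * qq S b lam (-t)‖ ≤
      Real.exp (-(c * g ^ 2 * ((i2 : ℝ) - i1) / 200)) * ((∫ t, ‖qq S b lam t‖) + Real.exp (c * 2 ^ (i2 + 3)) * ∫ t in Icc (-c) c, ‖qq S b lam t‖)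

/-! ## L. The fractal Logvinenko–Sereda theorem -/

/-- **Row PLR** (Plancherel; short-medium; pure: the proof is in `Pool/Agent/helper27/RX/PLN.lean` (private theorems `PLN_ae`, `PLN_main`; copy them) or `Pool/Agent/helper87/FD/FT0.lean`; substitution `η = 2π ξ`). -/
def PLR_stmt : Prop := ∀ (g : ℝ → ℂ) (M : ℝ), Integrable g → (∀ x, ‖g x‖ ≤ M) → Integrable (fun η : ℝ => ‖∫ v, ee (η * v) * g v‖ ^ 2) ∧ ∫ η, ‖∫ v, ee (η * v) * g v‖ ^ 2 = 2 * Real.pi * ∫ v, ‖g v‖ ^ 2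

/-- the windowed function -/
def qm (c x0 η : ℝ) (G : ℝ → ℂ) (x : ℝ) : ℂ := (rho x : ℂ) * ∫ s in Icc (-(c / 2)) (c / 2), G (x0 + x - s) * ee (η * s)

/-- **Row STF** (windowed Plancherel; medium; from RHO, PLR). `V(η) = ∫_(t>0) e^(-t) e^(iηt) ρ(t) ∫_s G(x0 - t - s) e^(iηs) = ∫_v e^(iηv) G(x0 - v) κ(v)`, `κ(v) = ∫_(|s| ≤ c/2, s < v) e^(-(v-s)) ρ(v - s) ds` (Fubini, `v = t + s`); `κ ≥ 0`, `κ(v) ≤ c e^(1 - v)`, `κ = 0` for `v ≤ -c/2`, `κ ≥ c e^(-3)/4 ≥ c/100` on `[1/2, 5/2]`. PLR: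
`∫ ‖V‖² = 2π ∫ ‖G(x0 - v)‖² κ² ≥ 2π (c/100)² ∫_(1/2)^(5/2)`. Upper bounds: `(∫ ‖qm‖)² ≤ (∫ ρ) ∫ ρ(x) |∫_s|² ≤ 16 ∫ ρ(x) |∫_s|²`, PLR for `s ↦ 1_(|s| ≤ c/2) G(x0 + x - s)`, Tonelli: `∫ dη ≤ 32π ∫_x ρ(x) ∫_s ‖G(x0 + x - s)‖² ≤ C ∫ ‖G(x0 + u)‖²/(1 + u²)` (`ρ(u + s) ≤ C/(1 + u²)`); `(∫_(|x| ≤ c/2) ‖qm‖)² ≤ c ∫_(|x| ≤ c/2) |∫_s|²`,
`∫ dη ≤ 2π c² ∫_(|u| ≤ c) ‖G(x0 + u)‖²`. `‖V‖² ≤ 2 δ² A1² + 2 B² A2²`; if the right hand side is used as integrable majorant: it is integrable by Tonelli. -/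
def STF_stmt : Prop := ∀ c : ℝ, 0 < c → c ≤ 1 → ∃ C : ℝ, 1 ≤ C ∧ ∀ (x0 δ B M : ℝ) (G : ℝ → ℂ), 0 ≤ δ → 0 ≤ B → Continuous G → (∀ x, ‖G x‖ ≤ M) →
  (∀ η : ℝ, ‖∫ t in Ioi (0 : ℝ), (Real.exp (-t) : ℂ) * ee (η * t) * qm c x0 η G (-t)‖ ≤ δ * (∫ x, ‖qm c x0 η G x‖) + B * ∫ x in Icc (-(c / 2)) (c / 2), ‖qm c x0 η G x‖) →
    ∫ v in Icc (1 / 2 : ℝ) (5 / 2), ‖G (x0 - v)‖ ^ 2 ≤ C * (δ ^ 2 * (∫ u, ‖G (x0 + u)‖ ^ 2 / (1 + u ^ 2)) + B ^ 2 * ∫ u in Icc (-c) c, ‖G (x0 + u)‖ ^ 2)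

/-- the trigonometric sum of period `P` -/
def GP (P : ℕ) (S : Finset ℤ) (a : ℤ → ℂ) (x : ℝ) : ℂ := ∑ k ∈ S, a k * ee (2 * Real.pi * k / P * x)

/-- **Row LSO** (one cell; short-medium; from UNQ, STF). `qm c x0 η G` with `G = GP P S a` is `qq S b lam`, `lam k = 2πk/P`, `b k = a k ee(lam k x0) ∫_(|s| ≤ c/2) ee((η - lam k) s)`. UNQ with `c/2`, `g = c/8`, STF with `δ = exp(..)`, `B = δ exp(c 2^(i2+2))`. Given `δ0` choose `i1`: `2^i1 ≥ 2 R2 + 8/c`, then `i2` with `exp(-(c/2)(c/8)²(i2 - i1)/200) ≤ δ0`; `R1 = 2^i2`. The gap hypothesis of UNQ: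
`ξ = η + 2^i`, `R = 2^(i-1)`: `y' ∈ [η + 2^i, η + (3/2) 2^i]`, `|lam k - y'| ≥ c 2^(i-1) > (c/8) 2^i + 1`. -/
def LSO_stmt : Prop := ∀ c R2 ε : ℝ, 0 < c → c ≤ 1 → 1 ≤ R2 → 0 < ε → ∃ K R1 : ℝ, 1 ≤ K ∧ R2 ≤ R1 ∧ ∀ (P : ℕ) (S : Finset ℤ) (a : ℤ → ℂ) (x0 : ℝ), 1 ≤ P →
  (∀ R : ℝ, R2 ≤ R → R ≤ R1 → ∀ ξ : ℝ, ∃ y ∈ Icc ξ (ξ + R), ∀ k ∈ S, c * R ≤ |2 * Real.pi * k / P - y|) →
    ∫ v in Icc (1 / 2 : ℝ) (5 / 2), ‖GP P S a (x0 - v)‖ ^ 2 ≤ ε * (∫ u, ‖GP P S a (x0 + u)‖ ^ 2 / (1 + u ^ 2)) + K * ∫ u in Icc (-c) c, ‖GP P S a (x0 + u)‖ ^ 2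

/-- **Row SUP** (summation over the cells; medium; pure). `f ≥ 0` continuous, `P`-periodic; `x_m ∈ [m, m+1]`. (1) `[x_m - 5/2, x_m - 1/2] ⊇ [m - 3/2, m - 1/2]`. (2) `∫_ℝ f(x_m + u)/(1 + u²) du = Σ_l ∫_0^P f(y)/(1 + (y + lP - x_m)²) dy`; the points `x_m - lP` are in `[j, j+1]`, `j = m - lP`, and `(m, l) ↦ j` is a bijection onto `ℤ`: `Σ_j 1/(1 + (y - x_j')²) ≤ 20`
(alternative: `1/(1 + u²) ≤ Σ_(j ∈ ℤ) 1_(|u - j| ≤ 1/2) 2/(1 + j²)..`, so the sum is `≤ Σ_j C/(1 + j²) Σ_m ∫_(x_m + j - 1/2)^(x_m + j + 1/2) f ≤ Σ_j C/(1 + j²) · 3 ∫_0^P f`). (3) each point is in at most `3` of the intervals `[x_m - c, x_m + c]`, and they are in `E` up to end points and in `[-1, P + 1]`: at most three periods. -/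
def SUP_stmt : Prop := ∃ C : ℝ, 1 ≤ C ∧ ∀ (c : ℝ) (P : ℕ) (f : ℝ → ℝ) (E : Set ℝ) (x : ℕ → ℝ), 0 < c → c ≤ 1 → 1 ≤ P → Continuous f → (∀ y, 0 ≤ f y) → (∀ y : ℝ, f (y + (P : ℝ)) = f y) → MeasurableSet E → (∀ y : ℝ, y + (P : ℝ) ∈ E ↔ y ∈ E) → (∀ m < P, (m : ℝ) ≤ x m ∧ x m ≤ m + 1 ∧ Ioo (x m - c) (x m + c) ⊆ E) →
  (∫ y in Icc (0 : ℝ) P, f y) ≤ ∑ m ∈ Finset.range P, ∫ v in Icc (1 / 2 : ℝ) (5 / 2), f (x m - v) ∧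
  ∑ m ∈ Finset.range P, ∫ u, f (x m + u) / (1 + u ^ 2) ≤ C * ∫ y in Icc (0 : ℝ) P, f y ∧
  ∑ m ∈ Finset.range P, ∫ u in Icc (-c) c, f (x m + u) ≤ C * ∫ y in E ∩ Icc (0 : ℝ) P, f y

/-- **Row LSP** (FRACTAL LOGVINENKO–SEREDA; short; from LSO, SUP). `ε = 1/(2C)`. -/
def LSP_stmt : Prop := ∀ c R2 : ℝ, 0 < c → c ≤ 1 → 1 ≤ R2 → ∃ K R1 : ℝ, 1 ≤ K ∧ R2 ≤ R1 ∧ ∀ (P : ℕ) (S : Finset ℤ) (a : ℤ → ℂ) (E : Set ℝ), 1 ≤ P → MeasurableSet E → (∀ y : ℝ, y + (P : ℝ) ∈ E ↔ y ∈ E) → (∀ m : ℤ, ∃ x : ℝ, m ≤ x ∧ x ≤ m + 1 ∧ Ioo (x - c) (x + c) ⊆ E) →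
  (∀ R : ℝ, R2 ≤ R → R ≤ R1 → ∀ ξ : ℝ, ∃ y ∈ Icc ξ (ξ + R), ∀ k ∈ S, c * R ≤ |2 * Real.pi * k / P - y|) →
    ∫ y in Icc (0 : ℝ) P, ‖GP P S a y‖ ^ 2 ≤ K * ∫ y in E ∩ Icc (0 : ℝ) P, ‖GP P S a y‖ ^ 2

/-! ## F. The fractal uncertainty principle -/

/-- trigonometric sums of period `4` -/
def tp (S : Finset ℤ) (a : ℤ → ℂ) (v : ℝ) : ℂ := ∑ j ∈ S, a j * ee (Real.pi * j * v / 2)

/-- **Row LSM** (the same at the scale `1/M`; short; from LSP). `P = 4M`, `GP (4M) S a (M v) = tp S a v`, substitution `x = M v`, `2πj/(4M) = (πj/2)/M`. -/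
def LSM_stmt : Prop := ∀ c R2 : ℝ, 0 < c → c ≤ 1 → 1 ≤ R2 → ∃ K R1 : ℝ, 1 ≤ K ∧ R2 ≤ R1 ∧ ∀ (M : ℕ) (S : Finset ℤ) (a : ℤ → ℂ) (E : Set ℝ), 1 ≤ M → MeasurableSet E → (∀ y : ℝ, y + 4 ∈ E ↔ y ∈ E) → (∀ m : ℤ, ∃ x : ℝ, (m : ℝ) / M ≤ x ∧ x ≤ ((m : ℝ) + 1) / M ∧ Ioo (x - c / M) (x + c / M) ⊆ E) →
  (∀ R : ℝ, R2 * M ≤ R → R ≤ R1 * M → ∀ ξ : ℝ, ∃ y ∈ Icc ξ (ξ + R), ∀ j ∈ S, c * R ≤ |Real.pi * j / 2 - y|) →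
    ∫ v in Icc (0 : ℝ) 4, ‖tp S a v‖ ^ 2 ≤ K * ∫ v in E ∩ Icc (0 : ℝ) 4, ‖tp S a v‖ ^ 2

/-- **Row PAR** (Parseval; short; pure). -/
def PAR_stmt : Prop := ∀ (S : Finset ℤ) (a : ℤ → ℂ), ∫ v in Icc (0 : ℝ) 4, ‖tp S a v‖ ^ 2 = 4 * ∑ j ∈ S, ‖a j‖ ^ 2

/-- **Row MUL** (products; short; pure). -/
def MUL_stmt : Prop := ∀ (S T : Finset ℤ) (a p : ℤ → ℂ), ∃ (S' : Finset ℤ) (a' : ℤ → ℂ), (∀ v, tp S' a' v = tp T p v * tp S a v) ∧ ∀ j ∈ S', ∃ i ∈ S, ∃ k ∈ T, j = i + k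

/-- **Row FEJ** (the Fejér kernel of period `4`; short-medium; pure). `F_D(v) = Σ_(|j| < D) (1 - |j|/D) ee(πjv/2) = (1/D) |Σ_(j<D) ee(πjv/2)|² = (1/D) (sin(πDv/4)/sin(πv/4))²` ; `|sin(πv/4)| ≥ |v|/2` for `|v| ≤ 2`: `F_D ≤ 4/(D v²)`. The convolution with a bounded measurable `4`-periodic function `u` is a trigonometric sum with the coefficients `(1 - |j|/D) û(j)`. `4`-periodicity: the mean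
over `[-2, 2]`. (1) values in `[0, 1]`; (2) if `u = 1` on `[v - d, v + d]`, then `φ(v) ≥ 1 - (1/4) ∫_(d ≤ |w| ≤ 2) 4/(D w²) ≥ 1 - 2/(D d)`; (3) if `u = 0` there: `φ(v) ≤ 2/(D d)`. -/
def FEJ_stmt : Prop := ∀ (D : ℕ) (G : Set ℝ), 1 ≤ D → MeasurableSet G → (∀ y : ℝ, y + 4 ∈ G ↔ y ∈ G) → ∃ p : ℤ → ℂ, ∀ v : ℝ, ∃ φ : ℝ, tp (Finset.Icc (-(D : ℤ)) D) p v = (φ : ℂ) ∧ 0 ≤ φ ∧ φ ≤ 1 ∧
  ∀ d : ℝ, 0 < d → d ≤ 2 → (Icc (v - d) (v + d) ⊆ G → 1 - 2 / (D * d) ≤ φ) ∧ (Disjoint (Icc (v - d) (v + d)) G → φ ≤ 2 / (D * d))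

/-- **Row CUT** (the cut-off functions; medium; from FEJ). Choose `x_m` for `0 ≤ m < 4M`: for `m < 2M` from the hypothesis with `v = m/M`; for `m ≥ 2M` from `v = m/M - 4`, plus `4` (so the interval `(x_m - c/M, x_m + c/M)` avoids the set `Y4 = ∪_l ((Y ∩ [0, 1]) + 4l)`: the radius is `< 1`); `4`-periodic continuation to `m ∈ ℤ`. `G` = the complement of `∪_m (x_m - c/(2M), x_m + c/(2M))`,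
`E = ∪_m (x_m - c/(4M), x_m + c/(4M))`, `D = ⌈16 M/(c τ)⌉`. FEJ with `d = c/(4M)` (for `v ∈ Y ∩ [0,1]`: `[v - d, v + d] ⊆ G`, for `v ∈ E`: disjoint from `G`, closed intervals: take `d = c/(8M)` if needed, constants are not important). -/
def CUT_stmt : Prop := ∀ c τ : ℝ, 0 < c → c < 1 → 0 < τ → τ < 1 → ∃ B : ℕ, 1 ≤ B ∧ ∀ (M : ℕ) (Y : Set ℝ), 1 ≤ M → (∀ v : ℝ, ∃ x ∈ Icc v (v + 1 / M), Disjoint (Ioo (x - c / M) (x + c / M)) Y) →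
  ∃ (p : ℤ → ℂ) (E : Set ℝ), MeasurableSet E ∧ (∀ y : ℝ, y + 4 ∈ E ↔ y ∈ E) ∧ (∀ m : ℤ, ∃ x : ℝ, (m : ℝ) / M ≤ x ∧ x ≤ ((m : ℝ) + 1) / M ∧ Ioo (x - c / 4 / M) (x + c / 4 / M) ⊆ E) ∧
    (∀ v : ℝ, ‖tp (Finset.Icc (-((B * M : ℕ) : ℤ)) (B * M : ℕ)) p v‖ ≤ 1) ∧ (∀ v ∈ E, ‖tp (Finset.Icc (-((B * M : ℕ) : ℤ)) (B * M : ℕ)) p v‖ ≤ τ) ∧
    ∀ v ∈ Y ∩ Icc 0 1, 1 - τ ≤ ‖tp (Finset.Icc (-((B * M : ℕ) : ℤ)) (B * M : ℕ)) p v‖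

/-- **Row FIT** (iteration; medium; from LSM, MUL, CUT, PAR). `c' = c/4`: LSM for `c'`, `R2 = 1`: `K, R1`. `τ = 1/(20K)`, `B` from CUT, `H = ⌈8B·4/c⌉` (`≥ 2`). Induction over `t`: `F_t` = trigonometric sum with frequencies within `2 B H^(t-1)` (index) of `J`, `‖F_t(v)‖ ≥ (1 - τ)^(number of steps) ‖f(v)‖` on `Y ∩ [0,1]`, `∫_0^4 ‖F_t‖² ≤ (1 - 1/(2K))^(number of steps) ∫_0^4 ‖f‖²`. Step: `M = H^t`; the spectrum of `F_(t-1)` has the gap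
property with `c/2` at the scales `R ≥ M`: `|πj'/2 - y| ≥ cR - (π/2) 2B H^(t-1) ≥ (c/4) R`; `∫ ‖φ F‖² ≤ ∫ ‖F‖² - (1 - τ²) ∫_E ‖F‖²`. `(1 - τ)^(-2) (1 - 1/(2K)) ≤ 1 - 1/(4K)`. -/
def FIT_stmt : Prop := ∀ c : ℝ, 0 < c → c < 1 → ∃ (θ R1 : ℝ) (H : ℕ), 0 < θ ∧ θ < 1 ∧ 1 ≤ R1 ∧ 2 ≤ H ∧ ∀ (t0 T : ℕ) (Y : Set ℝ) (J : Finset ℤ) (a : ℤ → ℂ), MeasurableSet Y →
  (∀ t : ℕ, t0 ≤ t → t < t0 + T → ∀ v : ℝ, ∃ x ∈ Icc v (v + 1 / ((H ^ t : ℕ) : ℝ)), Disjoint (Ioo (x - c / ((H ^ t : ℕ) : ℝ)) (x + c / ((H ^ t : ℕ) : ℝ))) Y) →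
  (∀ R : ℝ, (H : ℝ) ^ t0 ≤ R → R ≤ R1 * (H : ℝ) ^ (t0 + T) → ∀ ξ : ℝ, ∃ y ∈ Icc ξ (ξ + R), ∀ j ∈ J, c * R ≤ |Real.pi * j / 2 - y|) →
    ∫ v in Y ∩ Icc 0 1, ‖tp J a v‖ ^ 2 ≤ 4 * θ ^ T * ∑ j ∈ J, ‖a j‖ ^ 2

/-- **Row FUP** (THE FRACTAL UNCERTAINTY PRINCIPLE; short; from FIT). `t0` with `H^t0 ≥ R0`, `T` with `4 θ^T ≤ Q`, `N0 ≥ R0 H^(t0+T)` and `≥ R1 H^(t0+T)`. -/
def FUP_stmt : Prop := ∀ c R0 Q : ℝ, 0 < c → c < 1 → 1 ≤ R0 → 0 < Q → ∃ N0 : ℝ, 1 ≤ N0 ∧ ∀ (N : ℝ) (Y : Set ℝ) (J : Finset ℤ) (a : ℤ → ℂ), N0 ≤ N → MeasurableSet Y →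
  (∀ r : ℝ, R0 / N ≤ r → r ≤ 1 → ∀ v : ℝ, ∃ x ∈ Icc v (v + r), Disjoint (Ioo (x - c * r) (x + c * r)) Y) →
  (∀ R : ℝ, R0 ≤ R → R ≤ N → ∀ ξ : ℝ, ∃ y ∈ Icc ξ (ξ + R), ∀ j ∈ J, c * R ≤ |Real.pi * j / 2 - y|) →
    ∫ v in Y ∩ Icc 0 1, ‖∑ j ∈ J, a j * Complex.exp (((Real.pi * j * v / 2 : ℝ) : ℂ) * Complex.I)‖ ^ 2 ≤ Q * ∑ j ∈ J, ‖a j‖ ^ 2

end

end Pool.Agent.FS
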