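import Pool.Agent.helper52.IR.SpecC
import Pool.Agent.helper52.FS.SpecP

/-!
# MP_07c750 (quantum unique ergodicity, weight 10), PROJECT FS: dense geodesics carry at least half of the mass; the dynamics, rows `fs:XXX`

Page: /team-store/FS_page_helper52.md. Rules as in SpecP: file `Pool/Agent/<seat>/FS/XXX.lean`, `import Pool.Agent.helper52.FS.SpecD`, namespace `Pool.Agent.FS`, theorem `XXX_proof (h : YYY_stmt) .. : XXX_stmt`.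

THEOREM FS (`FSD_stmt`): a flow invariant probability measure on `X = Γ \ SL(2, ℝ)` with the property GP gives mass at most `1/2` to the points whose orbit is not dense in `X`.
`lM u aM t = aM t lM (e^t u)`, `nM x aM t = aM t nM (e^(-t) x)` (RS.GLC). `P` = the group of the `aM s lM u`.
-/

open scoped MatrixGroups ContDiff Topology UpperHalfPlane ComplexConjugate
open UpperHalfPlane MeasureTheory Filter Set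

set_option autoImplicit false

namespace Pool.Agent.FS

open Pool.Agent.RS
open Pool.Agent.MS (bq BB BA SF pf)
open Pool.Agent.EN (XG MG mkX mkM fl pr)

noncomputable section

/-! ## M. Minimality and uniform density -/

/-- **Row NLT** (`Γ` is not conjugate into the lower triangular matrices; medium; from RS.GLC, EN.XDS). Suppose `Γ' = h0⁻¹ Γ h0` is lower triangular. (1) no `γ' ≠ 1` in `Γ'` is `± lM u`: `aM t lM u aM(-t) = lM (e^(-t) u) → 1` for `t → ∞`, so `(h0 aM(-t))⁻¹ γ (h0 aM(-t))` is near `1`: XDS (for `-`: the square of `γ`; then `u = 0`, `γ = -1` acts trivially, `free`). (2) the commutator of two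
lower triangular matrices is some `lM u`, so `Γ'` is abelian. `Γ ≠ 1` (`cocompact`, `ℍ` is not compact); `γ0' ≠ 1` has diagonal entries `p, 1/p`, `p ≠ ±1`, and `u0⁻¹ γ0' u0` is diagonal for some `u0 = lM v0`; what commutes with it is diagonal: `u0⁻¹ Γ' u0 ⊆ {± aM s}`, `|s| ≥ s0 > 0` for `γ ≠ 1` (XDS at `g = h0 u0`; `-aM s`: square). (3) for
`g_v = h0 u0 lM v`: `g_v⁻¹ γ g_v = ± lM(-v) aM s lM v` has the lower left entry `± v (e^(-s/2) - e^(s/2))`: for all `γ ≠ 1` of absolute value `≥ 2 |v| sinh(s0/2)`. But by cocompactness (GLC third part, `SurfaceGroup.cocompact`) `g_v = γ_v k_v` with `k_v` in a fixed compact set, and `g_v⁻¹ (γ_v γ0 γ_v⁻¹) g_v = k_v⁻¹ γ0 k_v` is bounded: contradiction for `v → ∞`. -/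
def NLT_stmt : Prop := ∀ (Γ : Subgroup SL(2, ℝ)) (h0 : SL(2, ℝ)), QU.SurfaceGroup Γ → ∃ γ : Γ, (h0⁻¹ * (γ : SL(2, ℝ)) * h0).1 0 1 ≠ 0

/-- **Row PMS** (closed `P`-invariant sets, symmetric case; medium; from NLT, RS.GLC, EN.XFL, EN.XTX). Suppose `Z ≠ univ`: `mkX g1 ∉ Z`, so there is `ε > 0` with `mkX (g1 nM z) ∉ Z` for `|z| < ε`, and for `- g1`. `g_k = g1 aM(-k)`: `g1 nM z aM(-k) = g_k nM(e^k z)`, and the complement of `Z` is `P`-invariant (`P` is a group): `mkX (± g_k nM z' p) ∉ Z` for `|z'| < e^k ε`, `p ∈ P`.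
A matrix with second column `(b, d)`, `d ≠ 0`, is `± nM (b/d) p` with `p ∈ P`. So if `mkX h ∈ Z` and `(b, d)` is the second column of `g_k⁻¹ h`: `|d| e^k ε ≤ |b|`. Cocompactness: `γ_k ∈ Γ` with `γ_k g_k → g∞` along a subsequence; `mkX (γ_k⁻¹ h) = mkX h`: the second column of `(γ_k g_k)⁻¹ h` has `|d| e^k ε ≤ |b|`, so the second column of `g∞⁻¹ h` has `d = 0`, for every `h` with `mkX h ∈ Z`.
Fix `h0` with `mkX h0 ∈ Z`; then also `γ h0`, for all `γ ∈ Γ`: `m = g∞⁻¹ h0`, `m' = g∞⁻¹ γ h0` have `d = 0`, so `h0⁻¹ γ h0 = m⁻¹ m'` has the upper right entry `0`: against NLT. -/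
def PMS_stmt : Prop := ∀ (Γ : Subgroup SL(2, ℝ)) (Z : Set (XG Γ)), QU.SurfaceGroup Γ → IsClosed Z → Z.Nonempty → (∀ (g : SL(2, ℝ)) (s u : ℝ), mkX Γ g ∈ Z → mkX Γ (g * aM s * lM u) ∈ Z) → (∀ g : SL(2, ℝ), mkX Γ g ∈ Z → mkX Γ (-g) ∈ Z) → Z = univ

/-- **Row PMN** (`P`-minimality; short-medium; from PMS, EN.XFL, RS.GLC). `Z' = {mkX g | mkX (-g) ∈ Z}` (well defined, closed, `P`-invariant). `Z ∪ Z'` is symmetric: `= univ` (PMS). `X` is connected (image of `ℍ × ℝ` under `(z, θ) ↦ mkX (toSL2R z * kM θ)`, `toSL2R_smul_I`, GLC, or of the path connected set of the `nM x aM t kM θ`), so `Z ∩ Z'` is not empty; it is closed, `P`-invariant and symmetric, so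
`= univ` (PMS). -/
def PMN_stmt : Prop := ∀ (Γ : Subgroup SL(2, ℝ)) (Z : Set (XG Γ)), QU.SurfaceGroup Γ → IsClosed Z → Z.Nonempty → (∀ (g : SL(2, ℝ)) (s u : ℝ), mkX Γ g ∈ Z → mkX Γ (g * aM s * lM u) ∈ Z) → Z = univ

/-- **Row UDP** (uniform density; medium; from PMN, RS.GLC, EN.XFL, EN.XTX). First claim. If not, there are `g_k` with `mkX (g_k lM u aM t) ∉ O` for `u ∈ [0,1]`, `t ∈ [0, k]`; `X` is compact: a limit point gives `g` with `mkX (g lM u aM t) ∉ O` for all `u ∈ [0,1]`, `t ≥ 0`. Let `mkX h` be a limit point of `mkX (g lM(1/2) aM k)`. For all `s, u`: `mkX (h aM s lM u) ∉ O`, because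
`g lM(1/2) aM k aM s lM u = g lM(1/2 + e^(-(k+s)) u) aM(k+s)`. So `Z = {x | no point of x P is in O}` is closed, `P`-invariant, nonempty: `Z = univ` (PMN), against `O ≠ ∅`. Second claim: `κ = kM(π/2)`: `κ aM t = aM(-t) κ`, `nM z = κ lM(∓ z) κ⁻¹`; the first claim for the open set `{x | x κ⁻¹ ∈ O}` and `g κ` (times `lM(-1)` if the sign requires). -/
def UDP_stmt : Prop := ∀ (Γ : Subgroup SL(2, ℝ)) (O : Set (XG Γ)), QU.SurfaceGroup Γ → IsOpen O → O.Nonempty → ∃ T : ℝ, 0 < T ∧ ∀ g : SL(2, ℝ),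
  (∃ u ∈ Icc (0 : ℝ) 1, ∃ t ∈ Icc 0 T, mkX Γ (g * lM u * aM t) ∈ O) ∧ ∃ z ∈ Icc (0 : ℝ) 1, ∃ t ∈ Icc 0 T, mkX Γ (g * nM z * aM (-t)) ∈ O

/-- **Row POR** (porosity at all scales; short-medium; from UDP, RS.GLC, EN.XFL). `y0` with `mkX y0 ∈ O`; there are an open nonempty `O3` and `c1 > 0` with: `mkX k ∈ O3`, `|w| ≤ c1` implies `mkX (k lM w) ∈ O`, `mkX (k nM w) ∈ O` (`O3` = image of a small open neighbourhood of `y0`: `mkX` is open; continuity of `(k, w) ↦ k lM w` at `(y0, 0)`). `T` from UDP for `O3`, `R0 = e^(T+1)`, `c = min (1/2) (c1 e^(-T))`. `r = e^(-i)`, `i ∈ [0, n - 1 - T]`: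
`g lM v aM i lM u aM t = g lM(v + r u) aM(i + t)`, `x = v + r u`; `g lM w aM(i+t) = (g lM x aM(i+t)) lM(e^(i+t) (w - x))`, `e^(i+t) |w - x| ≤ e^T c ≤ c1`; the time `i + t ≤ n - 1`. The same backward: `g nM ζ aM(-i) nM z aM(-t) = g nM(ζ + r z) aM(-(i+t))`. -/
def POR_stmt : Prop := ∀ (Γ : Subgroup SL(2, ℝ)) (O : Set (XG Γ)), QU.SurfaceGroup Γ → IsOpen O → O.Nonempty → ∃ c R0 : ℝ, 0 < c ∧ c < 1 ∧ 1 ≤ R0 ∧ ∀ (n : ℕ) (g : SL(2, ℝ)) (r v : ℝ), R0 * Real.exp (-n) ≤ r → r ≤ 1 →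
  (∃ x ∈ Icc v (v + r), ∀ w ∈ Ioo (x - c * r) (x + c * r), ∃ t ∈ Icc (0 : ℝ) (n - 1), mkX Γ (g * lM w * aM t) ∈ O) ∧
  ∃ x ∈ Icc v (v + r), ∀ z ∈ Ioo (x - c * r) (x + c * r), ∃ t ∈ Icc (0 : ℝ) (n - 1), mkX Γ (g * nM z * aM (-t)) ∈ O

/-! ## N. The functions -/

/-- **Row CHF** (the function of one open set; medium; from MS.BXM, IR.SFP, RS.GLC, EN.XFL). `y` with `mkX y ∈ O`, `a` small (`≤` the `a0` of BXM): `mkX (y h) ∈ O` for all `h` with `bq (16a) (16a) (16a) h`. `ψ` from BXM for `A = {y}`, `n = 0`: `ψ = 1` at the `g` with `bq a a a (y⁻¹ γ g)`, `ψ g ≠ 0` implies `mkX g ∈ O`. `χ g = Π_k (1 - ψ (g aM(s_k)))`, `s_k = k a/100`, `|s_k| ≤ 4`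
(SFP: product, `1 - ψ`, translation; induction over the finite set of `k`; only the existence of constants `C`). (ii): `|s_k| ≤ 4`. (iii) `O' = {mkX (y h) | h` with entries of `h - 1` smaller than `a/100}` (open: `mkX` is open), `c0 = a/10000`: choose `k` with `|s + s_k| ≤ a/100`: `y⁻¹ γ k aM s lM o aM(s_k) = h aM(s + s_k) lM(e^(s_k) o)` is in the box `bq a a a`. -/
def CHF_stmt : Prop := ∀ (Γ : Subgroup SL(2, ℝ)) (O : Set (XG Γ)), QU.SurfaceGroup Γ → IsOpen O → O.Nonempty → ∃ (O' : Set (XG Γ)) (c0 C : ℝ) (χ χa χn χl : SL(2, ℝ) → ℝ), IsOpen O' ∧ O'.Nonempty ∧ 0 < c0 ∧ 1 ≤ C ∧ SF Γ χ χa χn χl ∧ (∀ g, 0 ≤ χ g ∧ χ g ≤ 1) ∧ (∀ g, |χn g| ≤ C) ∧ (∀ g, |χl g| ≤ C) ∧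
  (∀ g : SL(2, ℝ), (∀ s : ℝ, |s| ≤ 4 → mkX Γ (g * aM s) ∉ O) → χ g = 1) ∧ ∀ (k : SL(2, ℝ)) (s o : ℝ), mkX Γ k ∈ O' → |s| ≤ 3 → |o| ≤ c0 → χ (k * aM s * lM o) = 0

/-- **Row PRD** (the product along the orbit; short-medium; from IR.SFP). Induction over `n` with `Ψ^(n+1) g = Ψ^(n) g · χ (g aM n)`: `|Ψn| ≤ C Σ_(i<n) e^(-i) ≤ 2C`, `|Ψl| ≤ C Σ_(i<n) e^i ≤ C e^n` (`e - 1 ≥ 1`). -/
def PRD_stmt : Prop := ∀ (Γ : Subgroup SL(2, ℝ)) (C : ℝ) (χ χa χn χl : SL(2, ℝ) → ℝ) (n : ℕ), 1 ≤ C → SF Γ χ χa χn χl → (∀ g, 0 ≤ χ g ∧ χ g ≤ 1) → (∀ g, |χn g| ≤ C) → (∀ g, |χl g| ≤ C) →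
  ∃ Ψa Ψn Ψl : SL(2, ℝ) → ℝ, SF Γ (fun g => ∏ i ∈ Finset.range n, χ (g * aM i)) Ψa Ψn Ψl ∧ (∀ g, |Ψn g| ≤ 2 * C) ∧ ∀ g, |Ψl g| ≤ 2 * C * Real.exp n

/-- a smooth function whose support is porous along the leaves, in the future (`fw`) and, translated by `aM n`, in the past (`bw`) -/
structure PF (Γ : Subgroup SL(2, ℝ)) (c R0 C3 : ℝ) (n : ℕ) (Ψ Ψa Ψn Ψl : SL(2, ℝ) → ℝ) : Prop where
  sf : SF Γ Ψ Ψa Ψn Ψl
  nn : ∀ g, 0 ≤ Ψ g ∧ Ψ g ≤ 1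
  bn : ∀ g, |Ψn g| ≤ C3
  bl : ∀ g, |Ψl g| ≤ C3 * Real.exp n
  fw : ∀ (g : SL(2, ℝ)) (r v : ℝ), R0 * Real.exp (-n) ≤ r → r ≤ 1 → ∃ x ∈ Icc v (v + r), ∀ w ∈ Ioo (x - c * r) (x + c * r), Ψ (g * lM w) = 0
  bw : ∀ (g : SL(2, ℝ)) (r v : ℝ), R0 * Real.exp (-n) ≤ r → r ≤ 1 → ∃ x ∈ Icc v (v + r), ∀ z ∈ Ioo (x - c * r) (x + c * r), ∀ τ o : ℝ, |τ| ≤ 7 / 10 → |o| ≤ c → Ψ (g * nM z * aM τ * lM o * aM (-n)) = 0

/-- **Row PFO** (one open set; short-medium; from CHF, PRD, POR, EN.XFL, RS.GLC). `Ψ g = Π_(i<n) χ (g aM i)`, `n ≥ 1`, POR for the set `O'` of CHF. `fw`: `mkX (g lM w aM t) ∈ O'`, `t ∈ [0, n-1]`, `i` a natural number `≤ n - 1` with `|i - t| ≤ 1`: `χ (g lM w aM i) = χ ((g lM w aM t) aM(i - t)) = 0`. `bw`: `mkX (g nM z aM(-t)) ∈ O'`, `t ∈ [0, n-1]`; `m ∈ {1, .., n}` with `|τ - m + t| ≤ 2`, `i = n - m`: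
`g nM z aM τ lM o aM(-n) aM i = (g nM z aM(-t)) aM(τ - m + t) lM(e^(-m) o)`. `one`: for `x = mkX g` with orbit off `O`: all factors are `1`. -/
def PFO_stmt : Prop := ∀ (Γ : Subgroup SL(2, ℝ)) (O : Set (XG Γ)), QU.SurfaceGroup Γ → IsOpen O → O.Nonempty → ∃ c R0 C3 : ℝ, 0 < c ∧ c < 1 ∧ 1 ≤ R0 ∧ 1 ≤ C3 ∧ ∀ n : ℕ, 1 ≤ n → ∃ Ψ Ψa Ψn Ψl : SL(2, ℝ) → ℝ, PF Γ c R0 C3 n Ψ Ψa Ψn Ψl ∧ ∀ x : XG Γ, (∀ t, fl Γ t x ∉ O) → x ∈ IR.one Γ Ψ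

/-- **Row PFU** (unions; short-medium; from IR.SFP). `Ψ = 1 - (1 - Ψ1)(1 - Ψ2)`, zero where both are zero, `1` where one of them is `1`. Porosity of the union: `x1` from the first; `[v2, v2 + r2] ⊆ Icc v (v + r)`, `r2 = c1 r/2`, `v2 = x1` if `x1 ≤ v + r/2`, else `v2 = x1 - r2`; `x2` from the second: `|x2 - x1| ≤ c1 r/2`, so the interval of radius `c1 c2 r/2` about `x2` is in the first one. `c = c1 c2/2` (`≤ c1, c2`), `R0 = 2 R2/c1 + R1`, `C3 = C1 + C2`. -/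
def PFU_stmt : Prop := ∀ (Γ : Subgroup SL(2, ℝ)) (c1 R1 C1 c2 R2 C2 : ℝ), 0 < c1 → c1 < 1 → 1 ≤ R1 → 1 ≤ C1 → 0 < c2 → c2 < 1 → 1 ≤ R2 → 1 ≤ C2 → ∃ c R0 C3 : ℝ, 0 < c ∧ c < 1 ∧ 1 ≤ R0 ∧ 1 ≤ C3 ∧ ∀ (n : ℕ) (Ψ1 Ψa1 Ψn1 Ψl1 Ψ2 Ψa2 Ψn2 Ψl2 : SL(2, ℝ) → ℝ),
  PF Γ c1 R1 C1 n Ψ1 Ψa1 Ψn1 Ψl1 → PF Γ c2 R2 C2 n Ψ2 Ψa2 Ψn2 Ψl2 → ∃ Ψ Ψa Ψn Ψl : SL(2, ℝ) → ℝ, PF Γ c R0 C3 n Ψ Ψa Ψn Ψl ∧ IR.one Γ Ψ1 ∪ IR.one Γ Ψ2 ⊆ IR.one Γ Ψ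

/-- **Row FQP** (the frequencies are porous; short-medium; from RS.GLC). `lM(l u) nM z = nM z' aM t' lM w'`, `1 + l u z = e^(-t'/2)`, `z' = z/(1 + l u z)`, `w' = l u/(1 + l u z)`; so `e g lM(l u) nM z aM τ lM o = (e g) nM z' aM(τ + t') lM(e^τ w' + o)` with `|z' - z| ≤ l`, `|t'| ≤ 1/10`, `|e^τ w' + o| ≤ c` for `εc ≤ c`. Fix `e = ±1`, `J_e` = the `j ∈ J` with this `e`. `r = R · 2 εc/π ≤ 1`, `x` from `bw` for `e g`, `v = ξ · 2εc/π`,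
`y = x π/(2 εc)`. If `|π j/2 - y| < (c/2) R`: `|j εc - x| < (c/2) r`, `|z' - x| < (c/2) r + 5 εc ≤ c r` (`R ≥ 20/c`), so `Ψ' (..) = 0`: contradiction. Union of the two porous sets `J_1`, `J_(-1)` as in PFU. -/
def FQP_stmt : Prop := ∀ (Γ : Subgroup SL(2, ℝ)) (c R0 C3 κ0 : ℝ), 0 < c → c < 1 → 1 ≤ R0 → 1 ≤ C3 → 0 < κ0 → κ0 ≤ 1 → ∃ c' R0' : ℝ, 0 < c' ∧ c' < 1 ∧ 1 ≤ R0' ∧ ∀ (n : ℕ) (Ψ Ψa Ψn Ψl : SL(2, ℝ) → ℝ) (εc l l0 : ℝ) (g : SL(2, ℝ)) (J : Finset ℤ), R0' ≤ Real.exp n →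
  PF Γ c R0 C3 n Ψ Ψa Ψn Ψl → εc = κ0 * Real.exp (-n) → 0 ≤ l → l ≤ l0 → l0 ≤ εc / 100 → (∀ j ∈ J, IR.JC {h | Ψ (h * aM (-n)) ≠ 0} εc l l0 g j) →
    ∀ R : ℝ, R0' ≤ R → R ≤ Real.exp n → ∀ ξ : ℝ, ∃ y ∈ Icc ξ (ξ + R), ∀ j ∈ J, c' * R ≤ |Real.pi * j / 2 - y|

/-- **Row LFP** (the leaf condition; short-medium; from FUP, FQP). `N = e^n`, `Y = {v | Ψ (g' lM v) ≠ 0}` (open: `v ↦ Ψ (g' lM v)` is differentiable by `dl`), `c := min c c'`, `R0 := max R0 R0'`; FUP. -/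
def LFP_stmt : Prop := ∀ (Γ : Subgroup SL(2, ℝ)) (c R0 C3 κ0 Q : ℝ), 0 < c → c < 1 → 1 ≤ R0 → 1 ≤ C3 → 0 < κ0 → κ0 ≤ 1 → 0 < Q → ∃ n0 : ℕ, ∀ (n : ℕ) (Ψ Ψa Ψn Ψl Ψ' Ψa' Ψn' Ψl' : SL(2, ℝ) → ℝ) (εc : ℝ), n0 ≤ n →
  PF Γ c R0 C3 n Ψ Ψa Ψn Ψl → PF Γ c R0 C3 n Ψ' Ψa' Ψn' Ψl' → εc = κ0 * Real.exp (-n) → IR.LFC Ψ Ψ' n εc (εc / 100) Q

/-- **Row FSK** (finitely many open sets; short-medium; from LFP, PFO, PFU). Induction over `m` (PFU): constants `c, R0, C3` and for `n ≥ 1` a function `Ψ` with PF and `Ψ = 1` on the set (case `m = 0`: the set is empty). `0 < e ≤ 1`: `δ = (e/200)²`, `L0 = 2 K (C3 e^n)/δ`, `εc = π/(4 L0) = κ0 e^(-n)`, `κ0 = π δ/(8 K C3) ≤ 1`, LFP with `Q = δ²/128`; GP with `Ψ' = Ψ`, `B' = C3 e^n`, `l0 = εc/100`: `2 μ (one Ψ) ≤ 1 + e`. -/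
def FSK_stmt : Prop := ∀ (Γ : Subgroup SL(2, ℝ)) (μ : Measure (XG Γ)) (K : ℝ), QU.SurfaceGroup Γ → IsProbabilityMeasure μ → 1 ≤ K → IR.GP Γ μ K → ∀ (m : ℕ) (O : ℕ → Set (XG Γ)), (∀ i < m, IsOpen (O i) ∧ (O i).Nonempty) →
  μ {x | ∃ i < m, ∀ t, fl Γ t x ∉ O i} ≤ 1 / 2

/-- **Row FSD** (THE THEOREM; short; from FSK, EN.XTX, EN.XFL). A countable base of `X` (the nonempty members `O_i`); the orbit of `x` is not dense iff it avoids some `O_i`; the sets of FSK are closed (`{x | ∀ t, fl t x ∉ O_i}`) and increase with `m` to the set. -/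
def FSD_stmt : Prop := ∀ (Γ : Subgroup SL(2, ℝ)) (μ : Measure (XG Γ)) (K : ℝ), QU.SurfaceGroup Γ → IsProbabilityMeasure μ → 1 ≤ K → IR.GP Γ μ K →
  MeasurableSet {x : XG Γ | ¬ Dense (range fun t : ℝ => fl Γ t x)} ∧ μ {x : XG Γ | ¬ Dense (range fun t : ℝ => fl Γ t x)} ≤ 1 / 2

end

end Pool.Agent.FS
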