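import Pool.Agent.helper87.FS.Spec

/-!
# Project FS, row DEL: deletion of a vertex and the adjugate
-/

set_option autoImplicit false

namespace Pool.Agent.FS

open Polynomial Matrix Pool.Agent.helper42.NS

theorem DEL_ite {p q : Prop} (d1 : Decidable p) (d2 : Decidable q) (h : p ↔ q) :
    @ite ℤ p d1 1 0 = @ite ℤ q d2 1 0 := by
  by_cases hp : p
  · rw [if_pos hp, if_pos (h.mp hp)]
  · rw [if_neg hp, if_neg (fun hq => hp (h.mpr hq))]

theorem DEL_det {m k : Type} (i1 : Fintype m) (i2 : DecidableEq m) (i3 : Fintype k) (i4 : DecidableEq k) (e : m ≃ k)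
    (A : Matrix m m ℤ[X]) (B : Matrix k k ℤ[X]) (h : ∀ i j, B (e i) (e j) = A i j) :
    @Matrix.det k i4 i3 _ _ B = @Matrix.det m i2 i1 _ _ A := by
  rw [← Matrix.det_submatrix_equiv_self e B]
  refine congrArg Matrix.det ?_
  ext1 i j
  rw [Matrix.submatrix_apply, h]

theorem DEL_char {m k : Type} (i1 : Fintype m) (i2 : DecidableEq m) (i3 : Fintype k) (i4 : DecidableEq k)
    (A : Matrix m m ℤ) (B : Matrix k k ℤ) (i j : m) (x y : k) (h : B x y = A i j) (hij : i = j ↔ x = y) :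
    @Matrix.charmatrix ℤ _ k i4 i3 B x y = @Matrix.charmatrix ℤ _ m i2 i1 A i j := by
  by_cases h1 : i = j
  · have h2 := hij.mp h1
    subst h1
    subst h2
    rw [Matrix.charmatrix_apply_eq, Matrix.charmatrix_apply_eq, h]
  · have h2 : x ≠ y := fun h3 => h1 (hij.mpr h3)
    rw [Matrix.charmatrix_apply_ne _ _ _ h2, Matrix.charmatrix_apply_ne _ _ _ h1, h]

theorem DEL_charpoly {m k : Type} (i1 : Fintype m) (i2 : DecidableEq m) (i3 : Fintype k) (i4 : DecidableEq k) (e : m ≃ k)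
    (A : Matrix m m ℤ) (B : Matrix k k ℤ) (h : ∀ i j, B (e i) (e j) = A i j) :
    @Matrix.charpoly ℤ _ k i4 i3 B = @Matrix.charpoly ℤ _ m i2 i1 A := by
  unfold Matrix.charpoly
  exact DEL_det i1 i2 i3 i4 e _ _ fun i j => DEL_char i1 i2 i3 i4 A B i j (e i) (e j) (h i j) e.injective.eq_iff.symm

theorem DEL_block {n : ℕ} (M : Matrix (Fin n) (Fin n) ℤ[X]) (s : Fin n) (h : M s s = 1) (i1 : Fintype {i : Fin n // i = s})
    (i2 : DecidableEq {i : Fin n // i = s}) : @Matrix.det _ i2 i1 _ _ (Matrix.toSquareBlockProp M (fun i => i = s)) = 1 := by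
  rw [Matrix.det_unique]
  change M _ _ = 1
  have h2 : ((default : {i : Fin n // i = s}) : Fin n) = s := (default : {i : Fin n // i = s}).2
  rw [h2, h]

theorem DEL_empty (n : ℕ) (G : SimpleGraph (Fin n)) : chp G ∅ = (adj G).charpoly := by
  let e : Fin n ≃ ↥((∅ : Set (Fin n))ᶜ) := (Equiv.subtypeUnivEquiv (fun x => Set.mem_compl (Set.notMem_empty x))).symm
  unfold chp
  refine DEL_charpoly _ _ _ _ e (adj G) _ ?_
  intro i j
  rw [SimpleGraph.adjMatrix_apply]
  unfold adj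
  exact DEL_ite _ _ Iff.rfl

theorem DEL_minor {n : ℕ} (M : Matrix (Fin n) (Fin n) ℤ[X]) (s : Fin n) (h0 : ∀ j, j ≠ s → M s j = 0) (h1 : M s s = 1)
    {k : Type} (i3 : Fintype k) (i4 : DecidableEq k) (e : {i : Fin n // ¬ i = s} ≃ k) (B : Matrix k k ℤ[X])
    (h : ∀ i j, B (e i) (e j) = M i j) : @Matrix.det k i4 i3 _ _ B = M.det := by
  have h2 := Matrix.twoBlockTriangular_det' M (fun i => i = s) (by
    intro i hi j hj
    rw [hi, h0 j hj])
  refine Eq.trans ?_ h2.symm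
  refine (one_mul _).symm.trans ?_
  refine congrArg₂ (fun x y => x * y) (DEL_block M s h1 _ _).symm ?_
  exact DEL_det _ _ i3 i4 e _ B h

theorem DEL_one (n : ℕ) (G : SimpleGraph (Fin n)) (s : Fin n) :
    chp G {s} = Matrix.adjugate (charmatrix (adj G)) s s := by
  rw [Matrix.adjugate_apply]
  let e : {i : Fin n // ¬ i = s} ≃ ↥(({s} : Set (Fin n))ᶜ) := Equiv.subtypeEquivRight fun i => Iff.rfl
  unfold chp Matrix.charpoly
  refine DEL_minor _ s ?_ ?_ _ _ e _ ?_
  · intro j hj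
    rw [Matrix.updateRow_self, Pi.single_eq_of_ne hj]
  · rw [Matrix.updateRow_self, Pi.single_eq_same]
  · intro i j
    rw [Matrix.updateRow_ne i.2]
    refine DEL_char _ _ _ _ (adj G) _ i.1 j.1 (e i) (e j) ?_ ⟨fun h => congrArg e (Subtype.ext h), fun h => congrArg Subtype.val (e.injective h)⟩
    rw [SimpleGraph.adjMatrix_apply]
    unfold adj
    exact DEL_ite _ _ Iff.rfl

theorem DEL : DEL_stmt := fun n G s => ⟨DEL_empty n G, DEL_one n G s⟩

end Pool.Agent.FS
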