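import Pool.Agent.helper52.FS.SpecD

/-!
# MP_07c750 (quantum unique ergodicity, weight 10), PROJECT FS, second part: THE UNIFORM VERSION, rows `fs:XXX`

THEOREM (`FRQ_stmt`): for every nonempty open set `O` of `X = Γ \ SL(2, ℝ)` there is `c > 0` such that for EVERY quantum limit at least half of the mass lies on orbits which spend at least the proportion `c` of the time in `O` (`c` depends on `O` only). It contains the theorem of Dyatlov and Jin (`μ(O) ≥ c/2` for all quantum limits).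
Rules as in SpecD: `import Pool.Agent.helper52.FS.SpecE`.

Idea: `Ψ = θ((1/n) Σ_(i<n) χ(g a_i))` in place of the product; its support is the union over the sets `B` of exceptional times, `#B ≤ 2εn`, of sets which are porous at all scales not near `B`; the fractal uncertainty principle uses each scale separately, so the gain is `e^(-γn + K1 (#B + #B'))`, and there are only `e^(ηn)` sets `B`.
-/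

open scoped MatrixGroups ContDiff Topology UpperHalfPlane ComplexConjugate
open UpperHalfPlane MeasureTheory Filter Set

set_option autoImplicit false

namespace Pool.Agent.FS

open Pool.Agent.RS
open Pool.Agent.MS (bq BB BA SF pf)
open Pool.Agent.EN (XG MG mkX mkM fl pr)

noncomputable section

/-! ## G. Pure part -/

/-- **Row STH** (short; pure). `Real.smoothTransition ((s - (1 - 2 ε))/ε)`, or a cubic polynomial. -/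
def STH_stmt : Prop := ∀ ε : ℝ, 0 < ε → ε < 1 / 2 → ∃ (θ θ' : ℝ → ℝ) (C : ℝ), 1 ≤ C ∧ (∀ s, HasDerivAt θ (θ' s) s) ∧ (∀ s, 0 ≤ θ s ∧ θ s ≤ 1) ∧ (∀ s, |θ' s| ≤ C) ∧ (∀ s, 1 - ε ≤ s → θ s = 1) ∧ ∀ s, s ≤ 1 - 2 * ε → θ s = 0

/-- **Row CNT** (short-medium; pure). For `0 < x ≤ 1`: the number is `≤ Σ_B x^(#B - 2εn) = x^(-2εn) (1 + x)^n ≤ exp(n (x + 2ε log(1/x)))`. `x = min 1 (η/2)`, `2 ε0 log(1/x) ≤ η/2`. -/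
def CNT_stmt : Prop := ∀ η : ℝ, 0 < η → ∃ ε0 : ℝ, 0 < ε0 ∧ ε0 < 1 / 4 ∧ ∀ (ε : ℝ) (n : ℕ), 0 < ε → ε ≤ ε0 → ((((Finset.range n).powerset.filter fun B : Finset ℕ => (B.card : ℝ) ≤ 2 * ε * n).card : ℕ) : ℝ) ≤ Real.exp (η * n)

/-- **Row FIG** (iteration over a set `A` of good scales; short-medium; from LSM, MUL, CUT, PAR; the proof of FIT, steps only for `t ∈ A`). -/
def FIG_stmt : Prop := ∀ c : ℝ, 0 < c → c < 1 → ∃ (θ R1 : ℝ) (H : ℕ), 0 < θ ∧ θ < 1 ∧ 1 ≤ R1 ∧ 2 ≤ H ∧ ∀ (A : Finset ℕ) (Y : Set ℝ) (J : Finset ℤ) (a : ℤ → ℂ), MeasurableSet Y →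
  (∀ t ∈ A, ∀ v : ℝ, ∃ x ∈ Icc v (v + 1 / ((H ^ t : ℕ) : ℝ)), Disjoint (Ioo (x - c / ((H ^ t : ℕ) : ℝ)) (x + c / ((H ^ t : ℕ) : ℝ))) Y) →
  (∀ t ∈ A, ∀ R : ℝ, (H : ℝ) ^ t ≤ R → R ≤ R1 * (H : ℝ) ^ t → ∀ ξ : ℝ, ∃ y ∈ Icc ξ (ξ + R), ∀ j ∈ J, c * R ≤ |Real.pi * j / 2 - y|) →
    ∫ v in Y ∩ Icc 0 1, ‖tp J a v‖ ^ 2 ≤ 4 * θ ^ A.card * ∑ j ∈ J, ‖a j‖ ^ 2

/-- **Row FUG** (FUP with exceptional times; short-medium; from FIG). `A` = the `t` with `s = t log H`, `σ + T ≤ s ≤ n - T - log R1`, no `b ∈ B` with `|b - s| ≤ T`, no `b ∈ B'` with `s - σ - T ≤ b ≤ s + log R1 - σ + T`. Each `b` excludes at most `(2T + log R1)/log H + 1` values of `t`; in all there are at least `n/log H - K (1 + σ)` values. `4 θ^(#A) ≤ exp(..)`. -/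
def FUG_stmt : Prop := ∀ c T : ℝ, 0 < c → c < 1 → 1 ≤ T → ∃ γ K1 : ℝ, 0 < γ ∧ 0 ≤ K1 ∧ ∀ (σ : ℝ) (n : ℕ) (B B' : Finset ℕ) (Y : Set ℝ) (J : Finset ℤ) (a : ℤ → ℂ), 0 ≤ σ → MeasurableSet Y →
  (∀ s : ℝ, 0 ≤ s → s ≤ n - T → (∀ b ∈ B, ¬ (s - T ≤ b ∧ (b : ℝ) ≤ s + T)) → ∀ v : ℝ, ∃ x ∈ Icc v (v + Real.exp (-s)), Disjoint (Ioo (x - c * Real.exp (-s)) (x + c * Real.exp (-s))) Y) →
  (∀ s : ℝ, σ + T ≤ s → s ≤ n → (∀ b ∈ B', ¬ (s - σ - T ≤ b ∧ (b : ℝ) ≤ s - σ + T)) → ∀ ξ : ℝ, ∃ y ∈ Icc ξ (ξ + Real.exp s), ∀ j ∈ J, c * Real.exp s ≤ |Real.pi * j / 2 - y|) →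
    ∫ v in Y ∩ Icc 0 1, ‖tp J a v‖ ^ 2 ≤ Real.exp (K1 * (1 + σ + B.card + B'.card) - γ * n) * ∑ j ∈ J, ‖a j‖ ^ 2

/-! ## H. Dynamics -/

/-- **Row POT** (porosity with the time of the visit; short-medium; from UDP, RS.GLC, EN.XFL: the proof of POR without the restriction `r ≥ R0 e^(-n)`). -/
def POT_stmt : Prop := ∀ (Γ : Subgroup SL(2, ℝ)) (O : Set (XG Γ)), QU.SurfaceGroup Γ → IsOpen O → O.Nonempty → ∃ c T : ℝ, 0 < c ∧ c < 1 ∧ 1 ≤ T ∧ ∀ (g : SL(2, ℝ)) (s v : ℝ), 0 ≤ s →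
  (∃ x ∈ Icc v (v + Real.exp (-s)), ∀ w ∈ Ioo (x - c * Real.exp (-s)) (x + c * Real.exp (-s)), ∃ t ∈ Icc s (s + T), mkX Γ (g * lM w * aM t) ∈ O) ∧
  ∃ x ∈ Icc v (v + Real.exp (-s)), ∀ z ∈ Ioo (x - c * Real.exp (-s)) (x + c * Real.exp (-s)), ∃ t ∈ Icc s (s + T), mkX Γ (g * nM z * aM (-t)) ∈ O

/-- `χ` vanishes near the orbits through `O` -/
def VP (Γ : Subgroup SL(2, ℝ)) (O : Set (XG Γ)) (c0 : ℝ) (χ : SL(2, ℝ) → ℝ) : Prop := ∀ (k : SL(2, ℝ)) (s o : ℝ), mkX Γ k ∈ O → |s| ≤ 3 → |o| ≤ c0 → χ (k * aM s * lM o) = 0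

/-- **Row FWG** (leaf sets; short; from POT, RS.GLC). `i = ⌊t⌋`, `t ∈ [s, s + T1]`, `T = T1 + 1`: `i < n`, `i ∉ B`, `χ (g lM w aM i) = χ ((g lM w aM t) aM(i - t) lM 0) = 0`. -/
def FWG_stmt : Prop := ∀ (Γ : Subgroup SL(2, ℝ)) (O : Set (XG Γ)) (c0 : ℝ), QU.SurfaceGroup Γ → IsOpen O → O.Nonempty → 0 < c0 → ∃ c T : ℝ, 0 < c ∧ c < 1 ∧ 1 ≤ T ∧ ∀ (χ : SL(2, ℝ) → ℝ) (n : ℕ) (B : Finset ℕ) (g : SL(2, ℝ)), VP Γ O c0 χ →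
  ∀ s : ℝ, 0 ≤ s → s ≤ n - T → (∀ b ∈ B, ¬ (s - T ≤ b ∧ (b : ℝ) ≤ s + T)) → ∀ v : ℝ, ∃ x ∈ Icc v (v + Real.exp (-s)), Disjoint (Ioo (x - c * Real.exp (-s)) (x + c * Real.exp (-s))) {v | ∀ i < n, i ∉ B → χ (g * lM v * aM i) ≠ 0}

/-- **Row BWG** (frequencies; medium; from POT, RS.GLC; compare FQP). Fix the sign `e`. `σ1 = log (π/(2 κ0)) ≥ 0`; `R = e^s` corresponds to `r = R · 2εc/π = e^(-s')`, `s' = n - s + σ1 ≥ 0`. POT (second part) for `e g` at the time `s'`, `v = ξ · 2εc/π`: `x`, and for `z` with `|z - x| < c1 r` a time `t ∈ [s', s' + T1]` with `mkX (e g nM z aM(-t)) ∈ O`. `m = ⌊t⌋ + 1`, `i = n - m`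
(`≥ 0` because `s ≥ σ + T`): `e g nM z aM τ lM o aM(-n) aM i = (e g nM z aM(-t)) aM(τ - m + t) lM(e^(-m) o)`, `|τ - m + t| ≤ 2`; `i ∈ [s - σ1 - T1 - 1, s - σ1]` is not in `B`. The point of `j` is `(e g) nM z' aM(τ + t') lM(e^τ w' + o)` with `|z' - j εc| ≤ 5 εc` (see FQP), so `|π j/2 - y| ≥ (c1/2) R` for `y = x π/(2εc)`, `R ≥ 20/c1`.
Two signs: union of two porous sets as in PFU: the second one at the scale `(c1/4) R`, i.e. at `s - log(4/c1)`: `T ≥ T1 + 1 + log(4/c1) + ..`, `σ = σ1 + ..`, `c = c1²/32`. -/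
def BWG_stmt : Prop := ∀ (Γ : Subgroup SL(2, ℝ)) (O : Set (XG Γ)) (c0 : ℝ), QU.SurfaceGroup Γ → IsOpen O → O.Nonempty → 0 < c0 → ∃ c T : ℝ, 0 < c ∧ c < 1 ∧ 1 ≤ T ∧ ∀ κ0 : ℝ, 0 < κ0 → κ0 ≤ 1 → ∃ σ : ℝ, 0 ≤ σ ∧
  ∀ (χ : SL(2, ℝ) → ℝ) (n : ℕ) (B : Finset ℕ) (εc l l0 : ℝ) (g : SL(2, ℝ)) (J : Finset ℤ), VP Γ O c0 χ → εc = κ0 * Real.exp (-n) → 0 ≤ l → l ≤ l0 → l0 ≤ εc / 100 → (∀ j ∈ J, IR.JC {h | ∀ i < n, i ∉ B → χ (h * aM (-n) * aM i) ≠ 0} εc l l0 g j) →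
    ∀ s : ℝ, σ + T ≤ s → s ≤ n → (∀ b ∈ B, ¬ (s - σ - T ≤ b ∧ (b : ℝ) ≤ s - σ + T)) → ∀ ξ : ℝ, ∃ y ∈ Icc ξ (ξ + Real.exp s), ∀ j ∈ J, c * Real.exp s ≤ |Real.pi * j / 2 - y|

/-- **Row AVG** (the average function; short-medium; from IR.SFP or directly by the chain rule). `|Ψn| ≤ Cθ (1/n) Σ_(i<n) C e^(-i)`, `|Ψl| ≤ Cθ (1/n) Σ_(i<n) C e^i ≤ Cθ C e^n`. -/
def AVG_stmt : Prop := ∀ (Γ : Subgroup SL(2, ℝ)) (C Cθ : ℝ) (χ χa χn χl : SL(2, ℝ) → ℝ) (θ θ' : ℝ → ℝ) (n : ℕ), 1 ≤ C → 1 ≤ Cθ → 1 ≤ n → SF Γ χ χa χn χl → (∀ g, |χn g| ≤ C) → (∀ g, |χl g| ≤ C) → (∀ s, HasDerivAt θ (θ' s) s) → (∀ s, |θ' s| ≤ Cθ) →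
  ∃ Ψa Ψn Ψl : SL(2, ℝ) → ℝ, SF Γ (fun g => θ ((∑ i ∈ Finset.range n, χ (g * aM i)) / n)) Ψa Ψn Ψl ∧ (∀ g, |Ψn g| ≤ 2 * C * Cθ) ∧ ∀ g, |Ψl g| ≤ 2 * C * Cθ * Real.exp n

/-- **Row LFG** (the leaf condition; medium; from FWG, BWG, FUG, CNT, RS.GLC). `c` = minimum, `T` = maximum of the constants of FWG and BWG (both statements are monotone: smaller `c`, larger `T`; for BWG use `σ` of the given `κ0`); `γ, K1` from FUG; `η = γ/8`, `ε0 ≤ γ/(32 (K1 + 1))` and CNT. `Ψ g ≠ 0` implies `Σ χ(g aM i) > (1 - 2ε) n`, so `B(g) = {i < n | χ (g aM i) = 0}` has at most `2εn` elements: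
`{v | Ψ (g' lM v) ≠ 0} ⊆ ∪_B Y_B`, and `J = ∪ J_B` (disjoint, by choice of a witness). `∫_Y |Σ_J|² ≤ Σ_B Σ_B' N ∫_(Y_B) |Σ_(J_B')|² ≤ N² · exp(K1 (1 + σ + 4εn) - γn) Σ |c|²`, `N ≤ e^(ηn)` the number of the `B`: `≤ Q` for large `n`. `Y_B` is measurable (open: `v ↦ χ (g lM v aM i)` is differentiable by `dl` and GLC). -/
def LFG_stmt : Prop := ∀ (Γ : Subgroup SL(2, ℝ)) (O : Set (XG Γ)) (c0 : ℝ), QU.SurfaceGroup Γ → IsOpen O → O.Nonempty → 0 < c0 → ∃ ε0 : ℝ, 0 < ε0 ∧ ε0 < 1 / 4 ∧ ∀ (ε κ0 Q : ℝ), 0 < ε → ε ≤ ε0 → 0 < κ0 → κ0 ≤ 1 → 0 < Q → ∃ n0 : ℕ, ∀ (n : ℕ) (χ χa χn χl : SL(2, ℝ) → ℝ) (θ : ℝ → ℝ) (εc : ℝ), n0 ≤ n →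
  VP Γ O c0 χ → SF Γ χ χa χn χl → (∀ g, 0 ≤ χ g ∧ χ g ≤ 1) → (∀ s, s ≤ 1 - 2 * ε → θ s = 0) → εc = κ0 * Real.exp (-n) →
    IR.LFC (fun g => θ ((∑ i ∈ Finset.range n, χ (g * aM i)) / n)) (fun g => θ ((∑ i ∈ Finset.range n, χ (g * aM i)) / n)) n εc (εc / 100) Q

/-- **Row VIS** (few visits; short-medium; from EN.XFL). `x1 ∈ O`; `O1` open nonempty, `δ0 ≤ 1` with `fl s x ∈ O` for `x ∈ O1`, `|s| ≤ δ0` (joint continuity of the flow). If `i ∈ D`, some `t_i`, `|t_i - i| ≤ 4`, has `fl t_i x ∈ O1`: `(t_i - δ0, t_i + δ0) ⊆ {t | fl t x ∈ O}`; for `i ≥ 5` it is in `[0, n + 5]`, and for `i` in one class modulo `10` these intervals are disjoint: `#D ≤ 5 + 10 (V/(2δ0) + 1)`. -/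
def VIS_stmt : Prop := ∀ (Γ : Subgroup SL(2, ℝ)) (O : Set (XG Γ)), IsOpen O → O.Nonempty → ∃ (O1 : Set (XG Γ)) (δ0 : ℝ), IsOpen O1 ∧ O1.Nonempty ∧ 0 < δ0 ∧ δ0 ≤ 1 ∧ ∀ (x : XG Γ) (n : ℕ) (D : Finset ℕ), (∀ i ∈ D, i < n ∧ ∃ s : ℝ, |s| ≤ 4 ∧ fl Γ (i + s) x ∈ O1) →
  (D.card : ℝ) ≤ 15 + 5 / δ0 * volume.real {t : ℝ | t ∈ Icc (0 : ℝ) (n + 5) ∧ fl Γ t x ∈ O}

/-- **Row FRQ** (THE THEOREM, uniform version; medium; from CHF, STH, AVG, LFG, VIS, EN.XFL). `O1, δ0` from VIS for `O`; CHF for `O1`: `O', c0, C, χ`; `ε = ε0` of LFG for `O', c0`; `θ, Cθ` from STH; `c = ε δ0/20`. `C3 = 2 C Cθ`. Let `E` be the set; `x = mkX g ∈ E`: for large `n` (depending on `x`) the set `D` of the `i < n` with `χ (g aM i) ≠ 1` has, by CHF (ii) and VIS, `#D ≤ 15 + (5/δ0) c (n + 5) ≤ ε n`, so `Ψ_n g = 1`: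
`E ⊆ ∪_m E_m`, `E_m = {x | ∀ n ≥ m, x ∈ one Γ Ψ_n}` increasing. For `e ∈ (0, 1]`: `δ = (e/200)²`, `κ0 = πδ/(8 K C3) ≤ 1`, `Q = δ²/128`, LFG: `n0`; for `n ≥ max m n0 1` GP with `Ψ = Ψ' = Ψ_n`, `B' = C3 e^n`, `l0 = εc/100`: `2 μ (E_m) ≤ 2 μ (one Ψ_n) ≤ 1 + e`. -/
def FRQ_stmt : Prop := ∀ (Γ : Subgroup SL(2, ℝ)) (O : Set (XG Γ)), QU.SurfaceGroup Γ → IsOpen O → O.Nonempty → ∃ c : ℝ, 0 < c ∧ ∀ (μ : Measure (XG Γ)) (K : ℝ), IsProbabilityMeasure μ → 1 ≤ K → IR.GP Γ μ K →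
  μ {x : XG Γ | ∃ T0 : ℝ, ∀ T : ℝ, T0 ≤ T → volume.real {t : ℝ | t ∈ Icc 0 T ∧ fl Γ t x ∈ O} ≤ c * T} ≤ 1 / 2

end

end Pool.Agent.FS
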